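import Pool.Agent.Lib.MP_94c361_co_H.Mix

/-!
# MP_94c361_co: the mean of the absolute value of the coefficient
-/

set_option autoImplicit false

open scoped BigOperators

namespace Pool.Agent.MP94h

variable {n : ℕ}

/-- The test kernel. -/
def tk (σ τ : Equiv.Perm (Fin n)) : ℤ := ∑ g ∈ Gk n 1, W σ g * W τ g

theorem abs_hc (σ τ : Equiv.Perm (Fin n)) : |hc σ τ| = |∑ g ∈ Gam n, W σ g * W τ g| := by
  rw [hc_inner, abs_mul, abs_pow, abs_neg, abs_one, one_pow, one_mul]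

theorem abs_sum_ge (hn : 2 ≤ n) :
    2 * ((full n).card : ℤ) ^ 2 ≤ ∑ σ ∈ full n, ∑ τ ∈ full n, |hc σ τ| := by
  have h0 : ∀ g ∈ Gk n 1, g ≠ 0 := by
    rintro g hg rfl
    have h1 := (Finset.mem_filter.1 hg).2.1
    simp at h1
  have h1 := layer (n := n) (by omega) (k := 1) le_rfl
  have h2 : ∀ σ ∈ full n, ∑ g ∈ Gk n 1, (W σ g) ^ 2 ≤ ((Gk n 1).card : ℤ) := by
    intro σ hσ
    have h3 : ∑ g ∈ Gk n 1, (W σ g) ^ 2 ≤ (Gk n 1).card • (1 : ℤ) :=
      Finset.sum_le_card_nsmul _ _ _ fun g hg =>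
        W_sq_le_one (Finset.mem_filter.1 hσ).2 (h0 g hg)
    simpa using h3
  have h3 : ∑ g ∈ Gam n, ∑ g' ∈ Gk n 1, (∑ σ ∈ full n, W σ g * W σ g') ^ 2 ≤
      (∑ σ ∈ full n, ∑ τ ∈ full n, |hc σ τ|) * ((Gk n 1).card : ℤ) := by
    rw [← gram_mix, Finset.sum_mul]
    refine Finset.sum_le_sum fun σ hσ => ?_
    rw [Finset.sum_mul]
    refine Finset.sum_le_sum fun τ hτ => ?_
    refine (le_abs_self _).trans ?_
    rw [abs_mul, abs_hc]
    refine mul_le_mul_of_nonneg_left ?_ (abs_nonneg _)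
    refine abs_le_of_sq_le_sq ?_ (by positivity)
    refine (Finset.sum_mul_sq_le_sq_mul_sq (Gk n 1) (W σ) (W τ)).trans ?_
    rw [sq ((Gk n 1).card : ℤ)]
    exact mul_le_mul (h2 _ hσ) (h2 _ hτ) (Finset.sum_nonneg fun _ _ => sq_nonneg _)
      (by positivity)
  rw [Finset.sum_comm] at h3
  have h4 : 2 * ∑ g ∈ Gk n 1, (∑ σ ∈ full n, (W σ g) ^ 2) ^ 2 ≤
      ∑ g' ∈ Gk n 1, ∑ g ∈ Gam n, (∑ σ ∈ full n, W σ g * W σ g') ^ 2 := by
    rw [Finset.mul_sum]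
    exact Finset.sum_le_sum fun g hg => two_le (Finset.mem_filter.1 hg).1 (h0 g hg)
  have h5 : ((Gk n 1).card : ℤ) ≤ 2 * (n.choose (2 * 1) : ℤ) := by
    have h6 := card_Gk n 1
    have h7 : n.choose 1 * (n - 1).choose 1 = 2 * n.choose (2 * 1) := by
      rw [Nat.choose_one_right, Nat.choose_one_right, mul_one, mul_comm 2 (n.choose 2),
        Nat.choose_two_right, Nat.div_mul_cancel (even_iff_two_dvd.1 (Nat.even_mul_pred_self n))]
    rw [h7] at h6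
    exact_mod_cast h6
  have h8 : (0 : ℤ) < 2 * (n.choose (2 * 1) : ℤ) := by
    have : 0 < n.choose (2 * 1) := Nat.choose_pos hn
    positivity
  have hT : 0 ≤ ∑ σ ∈ full n, ∑ τ ∈ full n, |hc σ τ| :=
    Finset.sum_nonneg fun _ _ => Finset.sum_nonneg fun _ _ => abs_nonneg _
  set T : ℤ := ∑ σ ∈ full n, ∑ τ ∈ full n, |hc σ τ|
  set P : ℤ := 2 * (n.choose (2 * 1) : ℤ)
  set M : ℤ := ((Gk n 1).card : ℤ)
  set A : ℤ := ((full n).card : ℤ)
  have hM : 0 ≤ M := by positivity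
  have h9 : 2 * (P * A) ^ 2 ≤ M * (T * M) := by
    have h10 := mul_le_mul_of_nonneg_left (h4.trans h3) hM
    have h11 : M * (2 * ∑ g ∈ Gk n 1, (∑ σ ∈ full n, (W σ g) ^ 2) ^ 2) =
        2 * (M * ∑ g ∈ Gk n 1, (∑ σ ∈ full n, (W σ g) ^ 2) ^ 2) := by ring
    rw [h11] at h10
    linarith
  have h14 : P ^ 2 * (2 * A ^ 2) ≤ P ^ 2 * T := by
    have h13 : M ^ 2 ≤ P ^ 2 := pow_le_pow_left₀ hM h5 2
    calc P ^ 2 * (2 * A ^ 2) = 2 * (P * A) ^ 2 := by ring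
      _ ≤ M * (T * M) := h9
      _ = M ^ 2 * T := by ring
      _ ≤ P ^ 2 * T := mul_le_mul_of_nonneg_right h13 hT
  exact le_of_mul_le_mul_left h14 (by positivity)

/-- The Cauchy-Schwarz inequality. -/
theorem abs_sq_le (n : ℕ) : (∑ σ ∈ full n, ∑ τ ∈ full n, |hc σ τ|) ^ 2 ≤
    ((nz n).card : ℤ) * ∑ σ ∈ full n, ∑ τ ∈ full n, (hc σ τ) ^ 2 := by
  rw [← Finset.sum_product', ← Finset.sum_product']
  have h1 : ∑ p ∈ full n ×ˢ full n, |hc p.1 p.2| = ∑ p ∈ nz n, |hc p.1 p.2| := by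
    unfold nz
    rw [Finset.sum_filter]
    refine Finset.sum_congr rfl fun p _ => ?_
    by_cases h : hc p.1 p.2 = 0
    · rw [h]
      simp
    · rw [if_pos h]
  have h2 : ∑ p ∈ full n ×ˢ full n, (hc p.1 p.2) ^ 2 = ∑ p ∈ nz n, |hc p.1 p.2| ^ 2 := by
    unfold nz
    rw [Finset.sum_filter]
    refine Finset.sum_congr rfl fun p _ => ?_
    by_cases h : hc p.1 p.2 = 0
    · rw [h]
      simp
    · rw [if_pos h, sq_abs]
  rw [h1, h2]
  exact sq_sum_le_card_mul_sum_sq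

/-- A lower bound for the number of the pairs with a coefficient other than zero from an upper
bound for the second moment. -/
theorem nz_of_upper (hn : 2 ≤ n) (U : ℝ)
    (hU : ((∑ σ ∈ full n, ∑ τ ∈ full n, (hc σ τ) ^ 2 : ℤ) : ℝ) ≤ U * ((full n).card : ℝ) ^ 2) :
    4 * ((full n).card : ℝ) ^ 2 ≤ ((nz n).card : ℝ) * U := by
  rcases Nat.eq_zero_or_pos (full n).card with h0 | h0
  · have h1 : (nz n).card = 0 := by
      refine Finset.card_eq_zero.2 ?_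
      unfold nz
      rw [Finset.card_eq_zero.1 h0]
      simp
    rw [h0, h1]
    simp
  · have h1 := abs_sum_ge hn
    have h2 := abs_sq_le n
    have h3 : (0 : ℤ) ≤ 2 * ((full n).card : ℤ) ^ 2 := by positivity
    have h4 := (pow_le_pow_left₀ h3 h1 2).trans h2
    have h5 : ((2 : ℝ) * ((full n).card : ℝ) ^ 2) ^ 2 ≤
        ((nz n).card : ℝ) * ((∑ σ ∈ full n, ∑ τ ∈ full n, (hc σ τ) ^ 2 : ℤ) : ℝ) := by
      exact_mod_cast h4
    have h6 := h5.trans (mul_le_mul_of_nonneg_left hU (Nat.cast_nonneg _))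
    have h7 : (0 : ℝ) < ((full n).card : ℝ) ^ 2 := by positivity
    refine le_of_mul_le_mul_right ?_ h7
    calc 4 * ((full n).card : ℝ) ^ 2 * ((full n).card : ℝ) ^ 2 =
        (2 * ((full n).card : ℝ) ^ 2) ^ 2 := by ring
      _ ≤ _ := h6
      _ = _ := by ring

end Pool.Agent.MP94h
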