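import Pool.Agent.Lib.MP_94c361_co_H.Cyc

/-!
# MP_94c361_co: sets of vertices with a given number of boundary points along a cycle
-/

set_option autoImplicit false

open scoped BigOperators

namespace Pool.Agent.MP94h

variable {n : ℕ}

/-- The boundary. -/
def bd (σ : Equiv.Perm (Fin n)) (x : Fin n → Bool) : Finset (Fin n) :=
  Finset.univ.filter (fun u => x u ≠ x (σ.symm u))

/-- The boundary map over the field with two elements. -/
def bm (σ : Equiv.Perm (Fin n)) : (Fin n → ZMod 2) →+ (Fin n → ZMod 2) where
  toFun z := fun u => z u + z (σ.symm u)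
  map_zero' := by
    funext u
    simp
  map_add' z w := by
    funext u
    simp only [Pi.add_apply]
    ring

theorem bm_pair {σ : Equiv.Perm (Fin n)} (hσ : σ.cycleType = {n}) (a b : Fin n) :
    (Pi.single a 1 + Pi.single b 1 : Fin n → ZMod 2) ∈ (bm σ).range := by
  have h1 : ∀ c : Fin n, (Pi.single c 1 + Pi.single (σ c) 1 : Fin n → ZMod 2) ∈
      (bm σ).range := by
    intro c
    refine ⟨Pi.single c 1, ?_⟩
    funext u
    show (Pi.single c 1 : Fin n → ZMod 2) u + (Pi.single c 1 : Fin n → ZMod 2) (σ.symm u) = _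
    rw [Pi.add_apply]
    congr 1
    rw [Pi.single_apply, Pi.single_apply]
    have h2 : (σ.symm u = c) ↔ u = σ c := Equiv.symm_apply_eq σ
    by_cases h3 : u = σ c
    · rw [if_pos (h2.2 h3), if_pos h3]
    · rw [if_neg (fun h => h3 (h2.1 h)), if_neg h3]
  have h4 := inv_const hσ (fun c => ((Pi.single a 1 + Pi.single c 1 : Fin n → ZMod 2) ∈
    (bm σ).range : Prop)) (fun c => by
      apply propext
      have h5 : (Pi.single a 1 + Pi.single (σ c) 1 : Fin n → ZMod 2) =
          (Pi.single a 1 + Pi.single c 1) + (Pi.single c 1 + Pi.single (σ c) 1) := by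
        funext u
        simp only [Pi.add_apply]
        have h6 : ∀ p q r : ZMod 2, p + q = (p + r) + (r + q) := by decide
        exact h6 _ _ _
      constructor
      · intro h6
        have h7 := (bm σ).range.sub_mem h6 (h1 c)
        rw [h5, add_sub_cancel_right] at h7
        exact h7
      · intro h6
        rw [h5]
        exact (bm σ).range.add_mem h6 (h1 c)) a b
  simp only [eq_iff_iff] at h4
  refine h4.1 ?_
  have h8 : (Pi.single a 1 + Pi.single a 1 : Fin n → ZMod 2) = 0 := by
    funext u
    simp only [Pi.add_apply, Pi.zero_apply]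
    have h6 : ∀ p : ZMod 2, p + p = 0 := by decide
    exact h6 _
  rw [h8]
  exact (bm σ).range.zero_mem

theorem exists_bd {σ : Equiv.Perm (Fin n)} (hσ : σ.cycleType = {n}) (B : Finset (Fin n))
    (hB : Even B.card) : ∃ x : Fin n → Bool, bd σ x = B := by
  have h1 : (fun u => if u ∈ B then (1 : ZMod 2) else 0) ∈ (bm σ).range := by
    rcases B.eq_empty_or_nonempty with rfl | ⟨a, ha⟩
    · have : (fun u : Fin n => if u ∈ (∅ : Finset (Fin n)) then (1 : ZMod 2) else 0) = 0 := by
        funext u
        simp
      rw [this]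
      exact (bm σ).range.zero_mem
    · have h2 : (fun u => if u ∈ B then (1 : ZMod 2) else 0) =
          ∑ b ∈ B, (Pi.single a 1 + Pi.single b 1 : Fin n → ZMod 2) := by
        funext u
        rw [Finset.sum_apply]
        simp only [Pi.add_apply]
        rw [Finset.sum_add_distrib, Finset.sum_const]
        have h3 : B.card • (Pi.single a 1 : Fin n → ZMod 2) u = 0 := by
          obtain ⟨m, hm⟩ := hB
          rw [hm, ← two_mul, mul_smul, two_smul]
          have h6 : ∀ p : ZMod 2, p + p = 0 := by decide
          exact h6 _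
        rw [h3, zero_add]
        simp only [Pi.single_apply]
        rw [Finset.sum_ite_eq]
      rw [h2]
      exact (bm σ).range.sum_mem fun b _ => bm_pair hσ a b
  obtain ⟨z, hz⟩ := h1
  refine ⟨fun u => decide (z u = 1), ?_⟩
  ext u
  unfold bd
  rw [Finset.mem_filter]
  have h2 : z u + z (σ.symm u) = if u ∈ B then 1 else 0 := congrFun hz u
  have h3 : ∀ p q : ZMod 2, (decide (p = 1) ≠ decide (q = 1)) ↔ p + q = 1 := by decide
  rw [h3, h2]
  simp only [Finset.mem_univ, true_and]
  by_cases h4 : u ∈ B
  · simp [h4]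
  · simp [h4]

theorem bd_not (σ : Equiv.Perm (Fin n)) (x : Fin n → Bool) :
    bd σ (fun u => !x u) = bd σ x := by
  unfold bd
  refine Finset.filter_congr fun u _ => ?_
  cases h1 : x u <;> cases h2 : x (σ.symm u) <;> simp [h1, h2]

theorem count_bd (hn : 1 ≤ n) {σ : Equiv.Perm (Fin n)} (hσ : σ.cycleType = {n}) (k : ℕ) :
    2 * n.choose (2 * k) ≤
      (Finset.univ.filter (fun x : Fin n → Bool => (bd σ x).card = 2 * k)).card := by
  rw [Finset.card_eq_sum_card_fiberwise (f := bd σ)
    (t := Finset.powersetCard (2 * k) Finset.univ) (fun x hx => by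
      rw [Finset.mem_coe, Finset.mem_powersetCard]
      exact ⟨Finset.subset_univ _, (Finset.mem_filter.1 (Finset.mem_coe.1 hx)).2⟩)]
  have h1 : ∀ B ∈ Finset.powersetCard (2 * k) (Finset.univ : Finset (Fin n)), 2 ≤
      ((Finset.univ.filter (fun x : Fin n → Bool => (bd σ x).card = 2 * k)).filter
        (fun x => bd σ x = B)).card := by
    intro B hB
    have hB2 := (Finset.mem_powersetCard.1 hB).2
    obtain ⟨x, hx⟩ := exists_bd hσ B (by rw [hB2]; exact even_two_mul k)
    apply Finset.one_lt_card.2
    refine ⟨x, ?_, fun u => !x u, ?_, ?_⟩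
    · rw [Finset.mem_filter, Finset.mem_filter, hx]
      exact ⟨⟨Finset.mem_univ _, hB2⟩, rfl⟩
    · rw [Finset.mem_filter, Finset.mem_filter, bd_not, hx]
      exact ⟨⟨Finset.mem_univ _, hB2⟩, rfl⟩
    · intro h2
      have h3 := congrFun h2 ⟨0, hn⟩
      cases h4 : x ⟨0, hn⟩ <;> simp [h4] at h3
  have h2 := Finset.sum_le_sum h1
  rw [Finset.sum_const, Finset.card_powersetCard, Finset.card_univ, Fintype.card_fin,
    smul_eq_mul, mul_comm] at h2
  exact h2

theorem df_counts (σ : Equiv.Perm (Fin n)) (x : Fin n → Bool) (k : ℕ)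
    (h : (bd σ x).card = 2 * k) :
    (Finset.univ.filter (fun u => df σ x u = 1)).card = k ∧
      (Finset.univ.filter (fun u => df σ x u = -1)).card = k := by
  have h1 : ∑ u, df σ x u = 0 := by
    unfold df
    rw [Finset.sum_sub_distrib, Equiv.sum_comp σ.symm (fun u => if x u then (1 : ℤ) else 0),
      sub_self]
  have h2 : ∀ u, df σ x u = (if df σ x u = 1 then 1 else 0) - (if df σ x u = -1 then 1 else 0) := by
    intro u
    have h3 := (Fintype.mem_piFinset.1 (df_mem σ x)) u
    simp only [Finset.mem_insert, Finset.mem_singleton] at h3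
    rcases h3 with h3 | h3 | h3 <;> rw [h3] <;> norm_num
  rw [Finset.sum_congr rfl (fun u _ => h2 u), Finset.sum_sub_distrib, Finset.sum_boole,
    Finset.sum_boole] at h1
  have h4 : (bd σ x).card = (Finset.univ.filter (fun u => df σ x u = 1)).card +
      (Finset.univ.filter (fun u => df σ x u = -1)).card := by
    rw [← Finset.card_union_of_disjoint]
    · congr 1
      ext u
      unfold bd
      rw [Finset.mem_filter, Finset.mem_union, Finset.mem_filter, Finset.mem_filter]
      unfold df
      cases h5 : x u <;> cases h6 : x (σ.symm u) <;> simp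
    · rw [Finset.disjoint_left]
      intro u h5 h6
      rw [Finset.mem_filter] at h5 h6
      rw [h5.2] at h6
      norm_num at h6
  have h5 : ((Finset.univ.filter (fun u => df σ x u = 1)).card : ℤ) =
      ((Finset.univ.filter (fun u => df σ x u = -1)).card : ℤ) := by
    linarith
  have h6 : (Finset.univ.filter (fun u => df σ x u = 1)).card =
      (Finset.univ.filter (fun u => df σ x u = -1)).card := by exact_mod_cast h5
  omega

/-- The vectors with `k` entries `1` and `k` entries `-1`. -/
def Gk (n k : ℕ) : Finset (Fin n → ℤ) :=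
  (Gam n).filter (fun g => (Finset.univ.filter (fun u => g u = 1)).card = k ∧
    (Finset.univ.filter (fun u => g u = -1)).card = k)

theorem card_Gk (n k : ℕ) : (Gk n k).card ≤ n.choose k * (n - k).choose k := by
  have h1 : ((Finset.powersetCard k (Finset.univ : Finset (Fin n))).sigma
      (fun P => Finset.powersetCard k (Finset.univ \ P))).card = n.choose k * (n - k).choose k := by
    rw [Finset.card_sigma]
    have h2 : ∀ P ∈ Finset.powersetCard k (Finset.univ : Finset (Fin n)),
        (Finset.powersetCard k (Finset.univ \ P)).card = (n - k).choose k := by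
      intro P hP
      rw [Finset.card_powersetCard, Finset.card_univ_sdiff, Fintype.card_fin,
        (Finset.mem_powersetCard.1 hP).2]
    rw [Finset.sum_congr rfl h2, Finset.sum_const, Finset.card_powersetCard, Finset.card_univ,
      Fintype.card_fin, smul_eq_mul]
  rw [← h1]
  refine Finset.card_le_card_of_injOn (fun g => ⟨Finset.univ.filter (fun u => g u = 1),
    Finset.univ.filter (fun u => g u = -1)⟩) ?_ ?_
  · intro g hg
    have hg' := (Finset.mem_filter.1 (Finset.mem_coe.1 hg)).2
    rw [Finset.mem_coe, Finset.mem_sigma]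
    refine ⟨Finset.mem_powersetCard.2 ⟨Finset.subset_univ _, hg'.1⟩,
      Finset.mem_powersetCard.2 ⟨?_, hg'.2⟩⟩
    intro u hu
    have h3 := (Finset.mem_filter.1 hu).2
    rw [Finset.mem_sdiff]
    refine ⟨Finset.mem_univ _, fun h4 => ?_⟩
    have h5 := (Finset.mem_filter.1 h4).2
    rw [h3] at h5
    norm_num at h5
  · intro g hg g' hg' he
    have h3 := Sigma.mk.inj_iff.1 he
    have h4 := h3.1
    have h5 := eq_of_heq h3.2
    funext u
    have h6 := (Fintype.mem_piFinset.1 (Finset.mem_filter.1 (Finset.mem_coe.1 hg)).1) u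
    have h7 := (Fintype.mem_piFinset.1 (Finset.mem_filter.1 (Finset.mem_coe.1 hg')).1) u
    simp only [Finset.mem_insert, Finset.mem_singleton] at h6 h7
    have h8 := Finset.ext_iff.1 h4 u
    have h9 := Finset.ext_iff.1 h5 u
    simp only [Finset.mem_filter, Finset.mem_univ, true_and] at h8 h9
    rcases h6 with h6 | h6 | h6 <;> rcases h7 with h7 | h7 | h7 <;> simp_all

end Pool.Agent.MP94h
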