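import Pool.Agent.Lib.MP_94c361_co_H.Gram

/-!
# MP_94c361_co: full cycles
-/

set_option autoImplicit false

open scoped BigOperators

namespace Pool.Agent.MP94h

theorem gram_ge {α β : Type} (F : Finset α) (Γ : Finset β) (W : α → β → ℤ) :
    ∑ g ∈ Γ, (∑ σ ∈ F, (W σ g) ^ 2) ^ 2 ≤
      ∑ σ ∈ F, ∑ τ ∈ F, (∑ g ∈ Γ, W σ g * W τ g) ^ 2 := by
  have h1 : ∑ σ ∈ F, ∑ τ ∈ F, (∑ g ∈ Γ, W σ g * W τ g) ^ 2 =
      ∑ g ∈ Γ, ∑ g' ∈ Γ, (∑ σ ∈ F, W σ g * W σ g') ^ 2 := by
    simp only [sq, Finset.sum_mul_sum]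
    have h2 : ∀ σ ∈ F, ∑ τ ∈ F, ∑ g ∈ Γ, ∑ g' ∈ Γ, W σ g * W τ g * (W σ g' * W τ g') =
        ∑ g ∈ Γ, ∑ g' ∈ Γ, ∑ τ ∈ F, W σ g * W τ g * (W σ g' * W τ g') := by
      intro σ _
      rw [Finset.sum_comm]
      exact Finset.sum_congr rfl fun g _ => Finset.sum_comm
    rw [Finset.sum_congr rfl h2, Finset.sum_comm]
    refine Finset.sum_congr rfl fun g _ => ?_
    rw [Finset.sum_comm]
    refine Finset.sum_congr rfl fun g' _ => Finset.sum_congr rfl fun σ _ =>
      Finset.sum_congr rfl fun τ _ => ?_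
    ring
  rw [h1]
  refine Finset.sum_le_sum fun g hg => ?_
  have h3 := Finset.single_le_sum (s := Γ) (f := fun g' => (∑ σ ∈ F, W σ g * W σ g') ^ 2)
    (fun g' _ => sq_nonneg _) hg
  refine le_trans (le_of_eq ?_) h3
  simp only [sq]

theorem gram_two {α β : Type} [DecidableEq β] (F : Finset α) (Γ : Finset β) (W : α → β → ℤ)
    (ι : β → β) (hι : ∀ g ∈ Γ, ι g ∈ Γ) (s : ℤ) (hs : s ^ 2 = 1)
    (hW : ∀ σ g, W σ (ι g) = s * W σ g) :
    ∑ g ∈ Γ, (if ι g = g then 1 else 2) * (∑ σ ∈ F, (W σ g) ^ 2) ^ 2 ≤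
      ∑ σ ∈ F, ∑ τ ∈ F, (∑ g ∈ Γ, W σ g * W τ g) ^ 2 := by
  have h1 : ∑ σ ∈ F, ∑ τ ∈ F, (∑ g ∈ Γ, W σ g * W τ g) ^ 2 =
      ∑ g ∈ Γ, ∑ g' ∈ Γ, (∑ σ ∈ F, W σ g * W σ g') ^ 2 := by
    simp only [sq, Finset.sum_mul_sum]
    have h2 : ∀ σ ∈ F, ∑ τ ∈ F, ∑ g ∈ Γ, ∑ g' ∈ Γ, W σ g * W τ g * (W σ g' * W τ g') =
        ∑ g ∈ Γ, ∑ g' ∈ Γ, ∑ τ ∈ F, W σ g * W τ g * (W σ g' * W τ g') := by
      intro σ _
      rw [Finset.sum_comm]
      exact Finset.sum_congr rfl fun g _ => Finset.sum_comm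
    rw [Finset.sum_congr rfl h2, Finset.sum_comm]
    refine Finset.sum_congr rfl fun g _ => ?_
    rw [Finset.sum_comm]
    refine Finset.sum_congr rfl fun g' _ => Finset.sum_congr rfl fun σ _ =>
      Finset.sum_congr rfl fun τ _ => ?_
    ring
  rw [h1]
  refine Finset.sum_le_sum fun g hg => ?_
  have h4 : ∑ σ ∈ F, W σ g * W σ g = ∑ σ ∈ F, (W σ g) ^ 2 :=
    Finset.sum_congr rfl fun σ _ => (sq _).symm
  by_cases h2 : ι g = g
  · rw [if_pos h2, one_mul]
    have h3 := Finset.single_le_sum (s := Γ) (f := fun g' => (∑ σ ∈ F, W σ g * W σ g') ^ 2)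
      (fun g' _ => sq_nonneg _) hg
    refine le_trans (le_of_eq ?_) h3
    simp only [h4]
  · rw [if_neg h2]
    have h3 : ∑ g' ∈ {g, ι g}, (∑ σ ∈ F, W σ g * W σ g') ^ 2 ≤
        ∑ g' ∈ Γ, (∑ σ ∈ F, W σ g * W σ g') ^ 2 := by
      refine Finset.sum_le_sum_of_subset_of_nonneg ?_ (fun g' _ _ => sq_nonneg _)
      intro g' hg'
      rcases Finset.mem_insert.1 hg' with rfl | h5
      · exact hg
      · rw [Finset.mem_singleton.1 h5]
        exact hι g hg
    refine le_trans (le_of_eq ?_) h3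
    rw [Finset.sum_pair (Ne.symm h2)]
    have h5 : ∑ σ ∈ F, W σ g * W σ (ι g) = s * ∑ σ ∈ F, (W σ g) ^ 2 := by
      rw [Finset.mul_sum]
      refine Finset.sum_congr rfl fun σ _ => ?_
      rw [hW]
      ring
    rw [h4, h5, mul_pow, hs]
    ring

variable {n : ℕ}

theorem W_neg (σ : Equiv.Perm (Fin n)) (g : Fin n → ℤ) : W σ (-g) = (-1) ^ n * W σ g := by
  unfold W
  rw [Finset.mul_sum]
  refine Finset.sum_bij' (fun x _ => fun v => !x v) (fun x _ => fun v => !x v)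
    (fun _ _ => Finset.mem_univ _) (fun _ _ => Finset.mem_univ _)
    (fun x _ => by funext v; simp) (fun x _ => by funext v; simp) ?_
  intro x _
  have h1 : (df σ x = -g) ↔ (df σ (fun v => !x v) = g) := by
    constructor
    · intro h
      funext u
      rw [df_not, h]
      simp
    · intro h
      funext u
      have h2 := congrFun h u
      rw [df_not] at h2
      rw [Pi.neg_apply, ← h2]
      ring
  by_cases h2 : df σ x = -g
  · rw [if_pos h2, if_pos (h1.1 h2)]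
    have h3 := sg_not (fun v => !x v)
    simp only [Bool.not_not] at h3
    rw [← h3, ← mul_assoc, ← pow_add, ← two_mul, pow_mul]
    norm_num
  · rw [if_neg h2, if_neg (fun h => h2 (h1.2 h)), mul_zero]

theorem neg_mem {g : Fin n → ℤ} (hg : g ∈ Gam n) : -g ∈ Gam n := by
  unfold Gam at hg ⊢
  rw [Fintype.mem_piFinset] at hg ⊢
  intro u
  have h1 := hg u
  simp only [Finset.mem_insert, Finset.mem_singleton, Pi.neg_apply] at h1 ⊢
  rcases h1 with h1 | h1 | h1 <;> rw [h1] <;> norm_num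

theorem inv_const {σ : Equiv.Perm (Fin n)} (hσ : σ.cycleType = {n}) {β : Type}
    (D : Fin n → β) (hD : ∀ u, D (σ u) = D u) (a b : Fin n) : D a = D b := by
  have h1 : σ.IsCycle := by
    rw [← Equiv.Perm.card_cycleType_eq_one, hσ]
    simp
  have h2 : σ.support = Finset.univ := by
    rw [← Finset.card_eq_iff_eq_univ, ← σ.sum_cycleType, hσ]
    simp
  have h3 : ∀ c : Fin n, σ c ≠ c := by
    intro c
    have : c ∈ σ.support := by
      rw [h2]
      exact Finset.mem_univ _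
    exact Equiv.Perm.mem_support.1 this
  obtain ⟨i, hi⟩ := h1.exists_pow_eq (h3 a) (h3 b)
  rw [← hi]
  clear hi
  induction i with
  | zero => rfl
  | succ i ih => rw [pow_succ', Equiv.Perm.mul_apply, hD, ih]

theorem uniq {σ : Equiv.Perm (Fin n)} (hσ : σ.cycleType = {n}) {x y : Fin n → Bool}
    (h : df σ x = df σ y) (h0 : df σ x ≠ 0) : x = y := by
  have h1 : ∀ u, (if x (σ u) then (1 : ℤ) else 0) - (if y (σ u) then 1 else 0) =
      (if x u then 1 else 0) - (if y u then 1 else 0) := by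
    intro u
    have h2 := congrFun h (σ u)
    unfold df at h2
    rw [Equiv.symm_apply_apply] at h2
    linarith
  have h3 := inv_const hσ (fun u => (if x u then (1 : ℤ) else 0) - (if y u then 1 else 0)) h1
  by_contra hne
  obtain ⟨a, ha⟩ := Function.ne_iff.1 hne
  apply h0
  funext u
  have h4 := h3 a u
  have h5 := h3 a (σ.symm u)
  unfold df
  show _ = (0 : ℤ)
  cases hxa : x a <;> cases hya : y a <;> cases hxu : x u <;> cases hyu : y u <;>
    cases hxs : x (σ.symm u) <;> cases hys : y (σ.symm u) <;> simp_all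

theorem W_sq {σ : Equiv.Perm (Fin n)} (hσ : σ.cycleType = {n}) {g : Fin n → ℤ} (hg : g ≠ 0) :
    (W σ g) ^ 2 = ((Finset.univ.filter (fun x : Fin n → Bool => df σ x = g)).card : ℤ) := by
  unfold W
  rw [← Finset.sum_filter]
  by_cases h1 : (Finset.univ.filter (fun x : Fin n → Bool => df σ x = g)) = ∅
  · rw [h1]
    simp
  · obtain ⟨x, hx⟩ := Finset.nonempty_iff_ne_empty.2 h1
    have hx' := (Finset.mem_filter.1 hx).2
    have h2 : (Finset.univ.filter (fun x : Fin n → Bool => df σ x = g)) = {x} := by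
      ext y
      rw [Finset.mem_filter, Finset.mem_singleton]
      constructor
      · rintro ⟨_, hy⟩
        exact (uniq hσ (hx'.trans hy.symm) (by rw [hx']; exact hg)).symm
      · rintro rfl
        exact ⟨Finset.mem_univ _, hx'⟩
    rw [h2, Finset.sum_singleton, Finset.card_singleton]
    unfold sg
    rw [← Finset.prod_pow]
    simp only [Nat.cast_one]
    refine Finset.prod_eq_one fun v _ => ?_
    split_ifs <;> norm_num

end Pool.Agent.MP94h
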