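import Pool.Agent.Lib.MP_94c361_co_H.Low

/-!
# MP_94c361_co: Eulerian orientations of the union of two cycles
-/

set_option autoImplicit false

open scoped BigOperators

namespace Pool.Agent.MP94h

variable {n : ℕ}

/-- The number of Eulerian orientations of the union of two cycles: `p.1 v` says that `v` is the
tail of the edge from `v` to `σ v` (otherwise `σ v` is), `p.2 v` the same for `τ`; each vertex is
the tail of exactly two edges. -/
def heo (σ τ : Equiv.Perm (Fin n)) : ℕ :=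
  (Finset.univ.filter (fun p : (Fin n → Bool) × (Fin n → Bool) => ∀ u,
    (if p.1 u then 1 else 0) + (if p.1 (σ.symm u) then 0 else 1) +
      (if p.2 u then 1 else 0) + (if p.2 (τ.symm u) then 0 else 1) = 2)).card

/-- The number of orientations with a given difference. -/
def N (σ : Equiv.Perm (Fin n)) (g : Fin n → ℤ) : ℤ :=
  ((Finset.univ.filter (fun x : Fin n → Bool => df σ x = g)).card : ℤ)

theorem key : ∀ a b c d : Bool,
    ((if a then 1 else 0) + (if b then 0 else 1) + (if c then 1 else 0) +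
      (if d then 0 else 1) = 2) ↔
    ((if a then (1 : ℤ) else 0) - (if b then 1 else 0) =
      (if (!c) then 1 else 0) - (if (!d) then 1 else 0)) := by decide

theorem heo_eq (σ τ : Equiv.Perm (Fin n)) : (heo σ τ : ℤ) = ∑ g ∈ Gam n, N σ g * N τ g := by
  have h1 : heo σ τ = (Finset.univ.filter (fun p : (Fin n → Bool) × (Fin n → Bool) =>
      df σ p.1 = df τ p.2)).card := by
    unfold heo
    refine Finset.card_bij' (fun p _ => (p.1, fun v => !p.2 v)) (fun p _ => (p.1, fun v => !p.2 v))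
      ?_ ?_ ?_ ?_
    · intro p hp
      have h2 := (Finset.mem_filter.1 hp).2
      refine Finset.mem_filter.2 ⟨Finset.mem_univ _, ?_⟩
      funext u
      exact (key _ _ _ _).1 (h2 u)
    · intro p hp
      have h2 := (Finset.mem_filter.1 hp).2
      refine Finset.mem_filter.2 ⟨Finset.mem_univ _, ?_⟩
      intro u
      refine (key _ _ _ _).2 ?_
      simp only [Bool.not_not]
      exact congrFun h2 u
    · intro p _
      simp
    · intro p _
      simp
  rw [h1, Finset.card_eq_sum_card_fiberwise (f := fun p : (Fin n → Bool) × (Fin n → Bool) =>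
    df σ p.1) (t := Gam n) (fun p _ => Finset.mem_coe.2 (df_mem σ p.1))]
  push_cast
  refine Finset.sum_congr rfl fun g _ => ?_
  unfold N
  rw [← Nat.cast_mul, ← Finset.card_product]
  congr 2
  ext p
  simp only [Finset.mem_filter, Finset.mem_univ, true_and, Finset.mem_product]
  constructor
  · rintro ⟨h2, h3⟩
    exact ⟨h3, h2 ▸ h3⟩
  · rintro ⟨h2, h3⟩
    exact ⟨h2.trans h3.symm, h2⟩

theorem sum_heo (n : ℕ) : ((∑ σ ∈ full n, ∑ τ ∈ full n, heo σ τ : ℕ) : ℤ) =
    ∑ g ∈ Gam n, (∑ σ ∈ full n, N σ g) ^ 2 := by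
  push_cast
  simp only [heo_eq, sq, Finset.sum_mul_sum]
  have h2 : ∀ σ ∈ full n, ∑ τ ∈ full n, ∑ g ∈ Gam n, N σ g * N τ g =
      ∑ g ∈ Gam n, ∑ τ ∈ full n, N σ g * N τ g := fun σ _ => Finset.sum_comm
  rw [Finset.sum_congr rfl h2, Finset.sum_comm]

theorem zero_fiber (hn : 1 ≤ n) {σ : Equiv.Perm (Fin n)} (hσ : σ.cycleType = {n}) :
    (Finset.univ.filter (fun x : Fin n → Bool => df σ x = 0)) =
      {fun _ => true, fun _ => false} := by
  ext x
  simp only [Finset.mem_filter, Finset.mem_univ, true_and, Finset.mem_insert,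
    Finset.mem_singleton]
  constructor
  · intro h
    have h1 : ∀ u, x (σ u) = x u := by
      intro u
      have h2 := congrFun h (σ u)
      unfold df at h2
      rw [Equiv.symm_apply_apply] at h2
      cases h3 : x (σ u) <;> cases h4 : x u <;> simp_all
    have h2 := inv_const hσ x h1
    cases h3 : x ⟨0, hn⟩
    · right
      funext u
      rw [h2 u ⟨0, hn⟩, h3]
    · left
      funext u
      rw [h2 u ⟨0, hn⟩, h3]
  · rintro (rfl | rfl)
    · funext u
      unfold df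
      simp
    · funext u
      unfold df
      simp

theorem N_zero (hn : 1 ≤ n) {σ : Equiv.Perm (Fin n)} (hσ : σ.cycleType = {n}) : N σ 0 = 2 := by
  unfold N
  rw [zero_fiber hn hσ, Finset.card_pair]
  · norm_num
  · intro h
    have := congrFun h ⟨0, hn⟩
    simp at this

theorem W_zero (hn : 1 ≤ n) {σ : Equiv.Perm (Fin n)} (hσ : σ.cycleType = {n}) :
    (W σ 0) ^ 2 = if Even n then 4 else 0 := by
  unfold W
  rw [← Finset.sum_filter, zero_fiber hn hσ, Finset.sum_pair]
  · unfold sg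
    simp only [if_true, Bool.false_eq_true, if_false, Finset.prod_const, Finset.card_univ,
      Fintype.card_fin, one_pow]
    by_cases h : Even n
    · rw [if_pos h, h.neg_one_pow]
      norm_num
    · rw [if_neg h, (Nat.not_even_iff_odd.1 h).neg_one_pow]
      norm_num
  · intro h
    have := congrFun h ⟨0, hn⟩
    simp at this

theorem zero_mem (n : ℕ) : (0 : Fin n → ℤ) ∈ Gam n := by
  unfold Gam
  rw [Fintype.mem_piFinset]
  intro u
  simp

theorem main_ineq (hn : 1 ≤ n) :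
    2 * ((∑ σ ∈ full n, ∑ τ ∈ full n, heo σ τ : ℕ) : ℤ) +
        (if Even n then 8 else -8) * ((full n).card : ℤ) ^ 2 ≤
      ∑ σ ∈ full n, ∑ τ ∈ full n, (hc σ τ) ^ 2 := by
  have h1 : ∑ σ ∈ full n, ∑ τ ∈ full n, (hc σ τ) ^ 2 =
      ∑ σ ∈ full n, ∑ τ ∈ full n, (∑ g ∈ Gam n, W σ g * W τ g) ^ 2 := by
    refine Finset.sum_congr rfl fun σ _ => Finset.sum_congr rfl fun τ _ => ?_
    rw [hc_inner, mul_pow, ← pow_mul, mul_comm n 2, pow_mul]
    norm_num
  have h2 := gram_two (full n) (Gam n) (fun σ g => W σ g) (fun g => -g) (fun g hg => neg_mem hg)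
    ((-1) ^ n) (by rw [← pow_mul, mul_comm n 2, pow_mul]; norm_num) (fun σ g => W_neg σ g)
  rw [← h1] at h2
  refine le_trans (le_of_eq ?_) h2
  rw [sum_heo, ← Finset.add_sum_erase _ _ (zero_mem n), ← Finset.add_sum_erase _ _ (zero_mem n)]
  have h3 : ∑ g ∈ (Gam n).erase 0, (if -g = g then 1 else 2) * (∑ σ ∈ full n, (W σ g) ^ 2) ^ 2 =
      2 * ∑ g ∈ (Gam n).erase 0, (∑ σ ∈ full n, N σ g) ^ 2 := by
    rw [Finset.mul_sum]
    refine Finset.sum_congr rfl fun g hg => ?_
    have h5 : ¬ (-g = g) := by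
      intro h
      apply Finset.ne_of_mem_erase hg
      funext u
      have h6 := congrFun h u
      rw [Pi.neg_apply] at h6
      show g u = 0
      omega
    rw [if_neg h5]
    congr 2
    refine Finset.sum_congr rfl fun σ hσ => ?_
    rw [W_sq (Finset.mem_filter.1 hσ).2 (Finset.ne_of_mem_erase hg)]
    rfl
  have h4 : ∑ σ ∈ full n, N σ 0 = (full n).card * 2 := by
    have h0 : ∀ σ ∈ full n, N σ 0 = 2 := fun σ hσ => N_zero hn (Finset.mem_filter.1 hσ).2
    rw [Finset.sum_congr rfl h0, Finset.sum_const, nsmul_eq_mul]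
  have h5 : ∑ σ ∈ full n, (W σ 0) ^ 2 = (full n).card * (if Even n then 4 else 0) := by
    have h0 : ∀ σ ∈ full n, (W σ 0) ^ 2 = if Even n then 4 else 0 :=
      fun σ hσ => W_zero hn (Finset.mem_filter.1 hσ).2
    rw [Finset.sum_congr rfl h0, Finset.sum_const, nsmul_eq_mul]
  rw [h3, h4, h5, neg_zero, if_pos rfl]
  split_ifs <;> ring

theorem eo_ge (hn : 1 ≤ n) :
    (4 * ∑ k ∈ Finset.range (n / 2 + 1), (n.choose (2 * k) : ℝ) / ((2 * k).choose k : ℝ)) *
        ((full n).card : ℝ) ^ 2 ≤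
      ((∑ σ ∈ full n, ∑ τ ∈ full n, heo σ τ : ℕ) : ℝ) := by
  have h1 : ((∑ σ ∈ full n, ∑ τ ∈ full n, heo σ τ : ℕ) : ℝ) =
      ((∑ g ∈ Gam n, (∑ σ ∈ full n, N σ g) ^ 2 : ℤ) : ℝ) := by
    rw [← sum_heo]
    push_cast
    rfl
  rw [h1]
  have h4 : ∑ σ ∈ full n, N σ 0 = (full n).card * 2 := by
    have h0 : ∀ σ ∈ full n, N σ 0 = 2 := fun σ hσ => N_zero hn (Finset.mem_filter.1 hσ).2
    rw [Finset.sum_congr rfl h0, Finset.sum_const, nsmul_eq_mul]
  have h3 : ((full n).card * 2) ^ 2 +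
      ∑ k ∈ Finset.Icc 1 (n / 2), ∑ g ∈ Gk n k, (∑ σ ∈ full n, (W σ g) ^ 2) ^ 2 ≤
      ∑ g ∈ Gam n, (∑ σ ∈ full n, N σ g) ^ 2 := by
    rw [← Finset.add_sum_erase _ _ (zero_mem n), h4, ← Finset.sum_biUnion]
    · refine add_le_add le_rfl ?_
      have h6 : ∑ g ∈ (Finset.Icc 1 (n / 2)).biUnion (Gk n), (∑ σ ∈ full n, (W σ g) ^ 2) ^ 2 ≤
          ∑ g ∈ (Gam n).erase 0, (∑ σ ∈ full n, (W σ g) ^ 2) ^ 2 := by
        refine Finset.sum_le_sum_of_subset_of_nonneg ?_ (fun g _ _ => sq_nonneg _)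
        intro g hg
        obtain ⟨k, hk0, hk⟩ := Finset.mem_biUnion.1 hg
        refine Finset.mem_erase.2 ⟨?_, (Finset.mem_filter.1 hk).1⟩
        rintro rfl
        have h7 := (Finset.mem_filter.1 hk).2.1
        simp at h7
        have h8 := (Finset.mem_Icc.1 hk0).1
        omega
      refine h6.trans (le_of_eq ?_)
      refine Finset.sum_congr rfl fun g hg => ?_
      congr 1
      refine Finset.sum_congr rfl fun σ hσ => ?_
      rw [W_sq (Finset.mem_filter.1 hσ).2 (Finset.ne_of_mem_erase hg)]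
      rfl
    · intro k _ l _ hkl
      rw [Function.onFun, Finset.disjoint_left]
      intro g hg hg'
      exact hkl ((Finset.mem_filter.1 hg).2.1.symm.trans (Finset.mem_filter.1 hg').2.1)
  have h5 : ((((full n).card * 2) ^ 2 +
      ∑ k ∈ Finset.Icc 1 (n / 2), ∑ g ∈ Gk n k, (∑ σ ∈ full n, (W σ g) ^ 2) ^ 2 : ℤ) : ℝ) ≤
      ((∑ g ∈ Gam n, (∑ σ ∈ full n, N σ g) ^ 2 : ℤ) : ℝ) := by
    exact_mod_cast h3
  refine le_trans ?_ h5
  rw [Finset.range_eq_Ico, Finset.sum_eq_sum_Ico_succ_bot (by omega)]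
  rw [show Finset.Ico (0 + 1) (n / 2 + 1) = Finset.Icc 1 (n / 2) by
    ext k
    simp only [Finset.mem_Ico, Finset.mem_Icc]
    omega]
  rw [Int.cast_add, Int.cast_sum, mul_add, add_mul]
  refine add_le_add (le_of_eq ?_) ?_
  · simp
    ring
  · rw [Finset.mul_sum, Finset.sum_mul]
    refine Finset.sum_le_sum fun k hk => ?_
    obtain ⟨hk1, hk2⟩ := Finset.mem_Icc.1 hk
    exact layer_real hn hk1 (by omega)

theorem growth (n : ℕ) : 2 * (((3 : ℝ) / 2) ^ n + (1 / 2) ^ n) ≤
    4 * ∑ k ∈ Finset.range (n / 2 + 1), (n.choose (2 * k) : ℝ) / ((2 * k).choose k : ℝ) := by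
  have h1 := even_sum n
  have h2 : ∑ k ∈ Finset.range (n / 2 + 1), (n.choose (2 * k) : ℝ) / 4 ^ k ≤
      ∑ k ∈ Finset.range (n / 2 + 1), (n.choose (2 * k) : ℝ) / ((2 * k).choose k : ℝ) := by
    refine Finset.sum_le_sum fun k _ => ?_
    have h3 : (0 : ℝ) < ((2 * k).choose k : ℝ) := by
      exact_mod_cast Nat.choose_pos (show k ≤ 2 * k by omega)
    have h4 : ((2 * k).choose k : ℝ) ≤ 4 ^ k := by
      have h5 : (2 * k).choose k ≤ 2 ^ (2 * k) := Nat.choose_le_two_pow (2 * k) k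
      rw [pow_mul] at h5
      norm_num at h5
      exact_mod_cast h5
    exact div_le_div_of_nonneg_left (by positivity) h3 h4
  rw [Finset.range_eq_Ico, Finset.sum_eq_sum_Ico_succ_bot (by omega)] at h2
  rw [show Finset.Ico (0 + 1) (n / 2 + 1) = Finset.Icc 1 (n / 2) by
    ext k
    simp only [Finset.mem_Ico, Finset.mem_Icc]
    omega, h1] at h2
  simp only [mul_zero, Nat.choose_zero_right, Nat.cast_one, pow_zero, div_one] at h2
  rw [Finset.range_eq_Ico]
  linarith

end Pool.Agent.MP94h
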