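import Mathlib

/-!
# MP_94c361_co: the coefficient of a union of two cycles as a scalar product
-/

set_option autoImplicit false

open scoped BigOperators

namespace Pool.Agent.MP94h

variable {n : ℕ}

/-- The product over the edges of a permutation. -/
noncomputable def cyc (σ : Equiv.Perm (Fin n)) : MvPolynomial (Fin n) ℤ :=
  ∏ v, (MvPolynomial.X v - MvPolynomial.X (σ v))

/-- The coefficient of the product of the squares of the variables. -/
noncomputable def hc (σ τ : Equiv.Perm (Fin n)) : ℤ :=
  MvPolynomial.coeff (Finsupp.equivFunOnFinite.symm (fun _ : Fin n => 2)) (cyc σ * cyc τ)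

/-- The sign. -/
def sg (x : Fin n → Bool) : ℤ := ∏ v, (if x v then (-1 : ℤ) else 1)

/-- The difference. -/
def df (σ : Equiv.Perm (Fin n)) (x : Fin n → Bool) (u : Fin n) : ℤ :=
  (if x u then 1 else 0) - (if x (σ.symm u) then 1 else 0)

/-- The exponents. -/
noncomputable def ex (σ : Equiv.Perm (Fin n)) (x : Fin n → Bool) : Fin n →₀ ℕ :=
  ∑ v, Finsupp.single (if x v then v else σ v) 1

theorem ex_apply (σ : Equiv.Perm (Fin n)) (x : Fin n → Bool) (u : Fin n) :
    ((ex σ x u : ℕ) : ℤ) = 1 + df σ x u := by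
  unfold ex df
  rw [Finsupp.finsetSum_apply]
  have h1 : ∀ v : Fin n, (Finsupp.single (if x v then v else σ v) 1 : Fin n →₀ ℕ) u =
      (if v = u then (if x u then 1 else 0) else 0) +
        (if v = σ.symm u then (if x (σ.symm u) then 0 else 1) else 0) := by
    intro v
    rw [Finsupp.single_apply]
    by_cases hx : x v = true
    · rw [if_pos hx]
      by_cases h2 : v = u
      · subst h2
        by_cases h3 : v = σ.symm v
        · rw [← h3]
          simp [hx]
        · simp [hx, h3]
      · rw [if_neg h2, if_neg h2]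
        by_cases h3 : v = σ.symm u
        · rw [← h3]
          simp [hx]
        · simp [h3]
    · rw [if_neg hx]
      have h4 : (σ v = u) ↔ v = σ.symm u := by
        rw [Equiv.eq_symm_apply]
      by_cases h3 : v = σ.symm u
      · rw [if_pos (h4.2 h3), if_pos h3, ← h3, if_neg hx]
        by_cases h2 : v = u
        · subst h2
          simp [hx]
        · simp [h2]
      · rw [if_neg (fun h => h3 (h4.1 h)), if_neg h3]
        by_cases h2 : v = u
        · subst h2
          simp [hx]
        · simp [h2]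
  rw [Finset.sum_congr rfl (fun v _ => h1 v), Finset.sum_add_distrib, Finset.sum_ite_eq',
    Finset.sum_ite_eq']
  simp only [Finset.mem_univ, if_true]
  by_cases h2 : x u = true <;> by_cases h3 : x (σ.symm u) = true <;> simp [h2, h3]

theorem cyc_expand (σ : Equiv.Perm (Fin n)) :
    cyc σ = ∑ x : Fin n → Bool, MvPolynomial.monomial (ex σ x) ((-1) ^ n * sg x) := by
  unfold cyc
  have h1 : ∀ v : Fin n, (MvPolynomial.X v - MvPolynomial.X (σ v) : MvPolynomial (Fin n) ℤ) =
      ∑ b ∈ (Finset.univ : Finset Bool),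
        MvPolynomial.monomial (Finsupp.single (if b then v else σ v) 1) (if b then 1 else -1) := by
    intro v
    rw [Fintype.sum_bool]
    simp only [if_true, Bool.false_eq_true, if_false]
    rw [sub_eq_add_neg]
    congr 1
    rw [MvPolynomial.X, map_neg]
  rw [Finset.prod_congr rfl (fun v _ => h1 v), Finset.prod_univ_sum, Fintype.piFinset_univ]
  refine Finset.sum_congr rfl fun x _ => ?_
  rw [← MvPolynomial.monomial_sum_prod]
  unfold ex sg
  congr 1
  have h2 : ∀ v : Fin n, (if x v then (1 : ℤ) else -1) = (-1) * (if x v then (-1 : ℤ) else 1) := by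
    intro v
    by_cases h : x v = true <;> simp [h]
  rw [Finset.prod_congr rfl (fun v _ => h2 v), Finset.prod_mul_distrib, Finset.prod_const]
  simp

theorem sg_not (y : Fin n → Bool) : (-1) ^ n * sg (fun v => !y v) = sg y := by
  unfold sg
  have h1 : ((-1 : ℤ)) ^ n = ∏ _v : Fin n, (-1 : ℤ) := by simp
  rw [h1, ← Finset.prod_mul_distrib]
  refine Finset.prod_congr rfl fun v _ => ?_
  cases h : y v <;> simp [h]

theorem df_not (σ : Equiv.Perm (Fin n)) (y : Fin n → Bool) (u : Fin n) :
    df σ (fun v => !y v) u = - df σ y u := by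
  unfold df
  cases h1 : y u <;> cases h2 : y (σ.symm u) <;> simp [h1, h2]

theorem cyc_expand' (τ : Equiv.Perm (Fin n)) :
    cyc τ = ∑ y : Fin n → Bool, MvPolynomial.monomial (ex τ (fun v => !y v)) (sg y) := by
  rw [cyc_expand]
  refine Finset.sum_bij' (fun x _ => fun v => !x v) (fun x _ => fun v => !x v)
    (fun _ _ => Finset.mem_univ _) (fun _ _ => Finset.mem_univ _)
    (fun x _ => by funext v; simp) (fun x _ => by funext v; simp) ?_
  intro x _
  simp only [Bool.not_not]
  rw [← sg_not (fun v => !x v)]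
  simp only [Bool.not_not]

theorem hc_eq (σ τ : Equiv.Perm (Fin n)) :
    hc σ τ = (-1) ^ n * ∑ x : Fin n → Bool, ∑ y : Fin n → Bool,
      (if df σ x = df τ y then sg x * sg y else 0) := by
  unfold hc
  rw [cyc_expand σ, cyc_expand' τ, Finset.sum_mul_sum, MvPolynomial.coeff_sum, Finset.mul_sum]
  refine Finset.sum_congr rfl fun x _ => ?_
  rw [MvPolynomial.coeff_sum, Finset.mul_sum]
  refine Finset.sum_congr rfl fun y _ => ?_
  rw [MvPolynomial.monomial_mul, MvPolynomial.coeff_monomial]
  have h1 : (ex σ x + ex τ (fun v => !y v) =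
      Finsupp.equivFunOnFinite.symm (fun _ : Fin n => 2)) ↔ df σ x = df τ y := by
    rw [Finsupp.ext_iff, funext_iff]
    refine forall_congr' fun u => ?_
    rw [Finsupp.add_apply, Finsupp.equivFunOnFinite_symm_apply_apply]
    have h2 := ex_apply σ x u
    have h3 := ex_apply τ (fun v => !y v) u
    rw [df_not] at h3
    constructor
    · intro h4
      have h5 : ((ex σ x u : ℕ) : ℤ) + ((ex τ (fun v => !y v) u : ℕ) : ℤ) = 2 := by
        exact_mod_cast h4
      linarith
    · intro h4
      have h5 : ((ex σ x u : ℕ) : ℤ) + ((ex τ (fun v => !y v) u : ℕ) : ℤ) = 2 := by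
        linarith
      exact_mod_cast h5
  by_cases h2 : df σ x = df τ y
  · rw [if_pos (h1.2 h2), if_pos h2]
    ring
  · rw [if_neg (fun h => h2 (h1.1 h)), if_neg h2, mul_zero]

/-- The range of the difference. -/
def Gam (n : ℕ) : Finset (Fin n → ℤ) := Fintype.piFinset (fun _ : Fin n => ({-1, 0, 1} : Finset ℤ))

theorem df_mem (σ : Equiv.Perm (Fin n)) (x : Fin n → Bool) : df σ x ∈ Gam n := by
  unfold Gam
  rw [Fintype.mem_piFinset]
  intro u
  unfold df
  cases x u <;> cases x (σ.symm u) <;> simp

/-- The coordinates. -/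
def W (σ : Equiv.Perm (Fin n)) (g : Fin n → ℤ) : ℤ :=
  ∑ x : Fin n → Bool, if df σ x = g then sg x else 0

theorem hc_inner (σ τ : Equiv.Perm (Fin n)) :
    hc σ τ = (-1) ^ n * ∑ g ∈ Gam n, W σ g * W τ g := by
  rw [hc_eq]
  congr 1
  unfold W
  simp only [Finset.sum_mul_sum]
  rw [Finset.sum_comm]
  symm
  rw [Finset.sum_comm]
  rw [Finset.sum_comm (s := Finset.univ) (t := Finset.univ)]
  refine Finset.sum_congr rfl fun x _ => ?_
  rw [Finset.sum_comm]
  refine Finset.sum_congr rfl fun y _ => ?_
  have h1 : ∀ g ∈ Gam n, (if df σ x = g then sg x else 0) * (if df τ y = g then sg y else 0) =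
      if df σ x = g then (if df σ x = df τ y then sg x * sg y else 0) else 0 := by
    intro g _
    by_cases h2 : df σ x = g
    · subst h2
      rw [if_pos rfl, if_pos rfl]
      by_cases h3 : df σ x = df τ y
      · rw [if_pos h3, if_pos h3.symm]
      · rw [if_neg h3, if_neg (fun h => h3 h.symm), mul_zero]
    · rw [if_neg h2, if_neg h2, zero_mul]
  rw [Finset.sum_congr rfl h1, Finset.sum_ite_eq, if_pos (df_mem σ x)]

end Pool.Agent.MP94h
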