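import Pool.Agent.Lib.MP_94c361_co_H.Cut

/-!
# MP_94c361_co: a lower bound for the second moment, two random Hamiltonian cycles
-/

set_option autoImplicit false

open scoped BigOperators

namespace Pool.Agent.MP94h

/-- The full cycles. -/
def full (n : ℕ) : Finset (Equiv.Perm (Fin n)) :=
  Finset.univ.filter (fun σ => σ.cycleType = {n})

theorem layer {n : ℕ} (hn : 1 ≤ n) {k : ℕ} (hk : 1 ≤ k) :
    (2 * (n.choose (2 * k) : ℤ) * (full n).card) ^ 2 ≤
      (Gk n k).card * ∑ g ∈ Gk n k, (∑ σ ∈ full n, (W σ g) ^ 2) ^ 2 := by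
  have h0 : ∀ g ∈ Gk n k, g ≠ 0 := by
    rintro g hg rfl
    have h1 := (Finset.mem_filter.1 hg).2.1
    simp at h1
    omega
  have h1 : ∑ g ∈ Gk n k, ∑ σ ∈ full n, (W σ g) ^ 2 =
      ∑ σ ∈ full n, ((Finset.univ.filter (fun x : Fin n → Bool => df σ x ∈ Gk n k)).card : ℤ) := by
    rw [Finset.sum_comm]
    refine Finset.sum_congr rfl fun σ hσ => ?_
    have hσ' := (Finset.mem_filter.1 hσ).2
    rw [Finset.card_eq_sum_card_fiberwise (f := df σ) (t := Gk n k)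
      (fun x hx => Finset.mem_coe.2 (Finset.mem_filter.1 (Finset.mem_coe.1 hx)).2)]
    push_cast
    refine Finset.sum_congr rfl fun g hg => ?_
    rw [W_sq hσ' (h0 g hg), Finset.filter_filter]
    congr 2
    ext x
    simp only [Finset.mem_filter, Finset.mem_univ, true_and]
    constructor
    · intro h
      exact ⟨by rw [h]; exact hg, h⟩
    · exact fun h => h.2
  have h2 : 2 * (n.choose (2 * k) : ℤ) * (full n).card ≤
      ∑ g ∈ Gk n k, ∑ σ ∈ full n, (W σ g) ^ 2 := by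
    rw [h1]
    have h3 : ∀ σ ∈ full n, 2 * (n.choose (2 * k) : ℤ) ≤
        ((Finset.univ.filter (fun x : Fin n → Bool => df σ x ∈ Gk n k)).card : ℤ) := by
      intro σ hσ
      have hσ' := (Finset.mem_filter.1 hσ).2
      have h4 : 2 * n.choose (2 * k) ≤
          (Finset.univ.filter (fun x : Fin n → Bool => df σ x ∈ Gk n k)).card := by
        refine (count_bd hn hσ' k).trans (Finset.card_le_card fun x hx => ?_)
        have h5 := (Finset.mem_filter.1 hx).2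
        refine Finset.mem_filter.2 ⟨Finset.mem_univ _, Finset.mem_filter.2 ⟨df_mem σ x, ?_⟩⟩
        exact df_counts σ x k h5
      exact_mod_cast h4
    have h5 := Finset.sum_le_sum h3
    rw [Finset.sum_const, nsmul_eq_mul] at h5
    linarith
  have h6 : (0 : ℤ) ≤ 2 * (n.choose (2 * k) : ℤ) * (full n).card := by positivity
  calc (2 * (n.choose (2 * k) : ℤ) * (full n).card) ^ 2 ≤
      (∑ g ∈ Gk n k, ∑ σ ∈ full n, (W σ g) ^ 2) ^ 2 := pow_le_pow_left₀ h6 h2 2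
    _ ≤ _ := sq_sum_le_card_mul_sum_sq

theorem layer_real {n : ℕ} (hn : 1 ≤ n) {k : ℕ} (hk : 1 ≤ k) (hkn : 2 * k ≤ n) :
    4 * ((n.choose (2 * k) : ℝ) / ((2 * k).choose k : ℝ)) * ((full n).card : ℝ) ^ 2 ≤
      ((∑ g ∈ Gk n k, (∑ σ ∈ full n, (W σ g) ^ 2) ^ 2 : ℤ) : ℝ) := by
  have h1 : ((2 * (n.choose (2 * k) : ℝ) * (full n).card) ^ 2) ≤
      ((Gk n k).card : ℝ) * ((∑ g ∈ Gk n k, (∑ σ ∈ full n, (W σ g) ^ 2) ^ 2 : ℤ) : ℝ) := by
    exact_mod_cast layer hn hk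
  have h2 : ((Gk n k).card : ℝ) ≤ (n.choose (2 * k) : ℝ) * ((2 * k).choose k : ℝ) := by
    have h3 : n.choose (2 * k) * (2 * k).choose k = n.choose k * (n - k).choose (2 * k - k) :=
      Nat.choose_mul (show k ≤ 2 * k by omega)
    have h4 : 2 * k - k = k := by omega
    rw [h4] at h3
    have h5 := card_Gk n k
    rw [← h3] at h5
    exact_mod_cast h5
  have h6 : (0 : ℝ) ≤ ((∑ g ∈ Gk n k, (∑ σ ∈ full n, (W σ g) ^ 2) ^ 2 : ℤ) : ℝ) := by
    exact Int.cast_nonneg (Finset.sum_nonneg fun g _ => sq_nonneg _)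
  have h7 : (0 : ℝ) < (n.choose (2 * k) : ℝ) := by exact_mod_cast Nat.choose_pos hkn
  have h8 : (0 : ℝ) < ((2 * k).choose k : ℝ) := by
    exact_mod_cast Nat.choose_pos (show k ≤ 2 * k by omega)
  have h9 := h1.trans (mul_le_mul_of_nonneg_right h2 h6)
  set T : ℝ := ((∑ g ∈ Gk n k, (∑ σ ∈ full n, (W σ g) ^ 2) ^ 2 : ℤ) : ℝ)
  have h10 : (n.choose (2 * k) : ℝ) * (4 * (n.choose (2 * k) : ℝ) * ((full n).card : ℝ) ^ 2) ≤
      (n.choose (2 * k) : ℝ) * (((2 * k).choose k : ℝ) * T) := by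
    calc _ = (2 * (n.choose (2 * k) : ℝ) * (full n).card) ^ 2 := by ring
      _ ≤ _ := h9
      _ = _ := by ring
  have h11 := le_of_mul_le_mul_left h10 h7
  calc 4 * ((n.choose (2 * k) : ℝ) / ((2 * k).choose k : ℝ)) * ((full n).card : ℝ) ^ 2 =
      (4 * (n.choose (2 * k) : ℝ) * ((full n).card : ℝ) ^ 2) / ((2 * k).choose k : ℝ) := by ring
    _ ≤ T := by
      rw [div_le_iff₀ h8]
      linarith

theorem hc_sq_ge {n : ℕ} (hn : 1 ≤ n) :
    (4 * ∑ k ∈ Finset.Icc 1 (n / 2), (n.choose (2 * k) : ℝ) / ((2 * k).choose k : ℝ)) *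
        ((full n).card : ℝ) ^ 2 ≤
      ((∑ σ ∈ full n, ∑ τ ∈ full n, (hc σ τ) ^ 2 : ℤ) : ℝ) := by
  have h1 : ∑ σ ∈ full n, ∑ τ ∈ full n, (hc σ τ) ^ 2 =
      ∑ σ ∈ full n, ∑ τ ∈ full n, (∑ g ∈ Gam n, W σ g * W τ g) ^ 2 := by
    refine Finset.sum_congr rfl fun σ _ => Finset.sum_congr rfl fun τ _ => ?_
    rw [hc_inner, mul_pow, ← pow_mul, mul_comm n 2, pow_mul]
    norm_num
  have h2 := gram_ge (full n) (Gam n) (fun σ g => W σ g)
  rw [← h1] at h2
  have h3 : ∑ k ∈ Finset.Icc 1 (n / 2), ∑ g ∈ Gk n k, (∑ σ ∈ full n, (W σ g) ^ 2) ^ 2 ≤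
      ∑ g ∈ Gam n, (∑ σ ∈ full n, (W σ g) ^ 2) ^ 2 := by
    rw [← Finset.sum_biUnion]
    · refine Finset.sum_le_sum_of_subset_of_nonneg ?_ (fun g _ _ => sq_nonneg _)
      intro g hg
      obtain ⟨k, _, hk⟩ := Finset.mem_biUnion.1 hg
      exact (Finset.mem_filter.1 hk).1
    · intro k _ l _ hkl
      rw [Function.onFun, Finset.disjoint_left]
      intro g hg hg'
      exact hkl ((Finset.mem_filter.1 hg).2.1.symm.trans (Finset.mem_filter.1 hg').2.1)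
  have h4 : ((∑ k ∈ Finset.Icc 1 (n / 2), ∑ g ∈ Gk n k,
      (∑ σ ∈ full n, (W σ g) ^ 2) ^ 2 : ℤ) : ℝ) ≤
      ((∑ σ ∈ full n, ∑ τ ∈ full n, (hc σ τ) ^ 2 : ℤ) : ℝ) := by
    exact_mod_cast h3.trans h2
  refine le_trans ?_ h4
  rw [Finset.mul_sum, Finset.sum_mul, Int.cast_sum]
  refine Finset.sum_le_sum fun k hk => ?_
  obtain ⟨hk1, hk2⟩ := Finset.mem_Icc.1 hk
  exact layer_real hn hk1 (by omega)

theorem even_sum (n : ℕ) :
    ∑ k ∈ Finset.Icc 1 (n / 2), (n.choose (2 * k) : ℝ) / 4 ^ k =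
      ((3 / 2) ^ n + (1 / 2) ^ n) / 2 - 1 := by
  have h1 : ((3 : ℝ) / 2) ^ n = ∑ j ∈ Finset.range (n + 1), (n.choose j : ℝ) * (1 / 2) ^ j := by
    have := add_pow (1 / 2 : ℝ) 1 n
    rw [show (1 / 2 : ℝ) + 1 = 3 / 2 by norm_num] at this
    rw [this]
    refine Finset.sum_congr rfl fun j _ => ?_
    rw [one_pow, mul_one, mul_comm]
  have h2 : ((1 : ℝ) / 2) ^ n =
      ∑ j ∈ Finset.range (n + 1), (n.choose j : ℝ) * (-(1 / 2)) ^ j := by
    have := add_pow (-(1 / 2) : ℝ) 1 n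
    rw [show (-(1 / 2) : ℝ) + 1 = 1 / 2 by norm_num] at this
    rw [this]
    refine Finset.sum_congr rfl fun j _ => ?_
    rw [one_pow, mul_one, mul_comm]
  have h3 : ∀ j ∈ Finset.range (n + 1), (n.choose j : ℝ) * (1 / 2) ^ j +
      (n.choose j : ℝ) * (-(1 / 2)) ^ j =
      if Even j then 2 * ((n.choose j : ℝ) * (1 / 2) ^ j) else 0 := by
    intro j _
    by_cases hj : Even j
    · rw [if_pos hj, hj.neg_pow]
      ring
    · rw [if_neg hj, (Nat.not_even_iff_odd.1 hj).neg_pow]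
      ring
  have h4 : ((3 : ℝ) / 2) ^ n + (1 / 2) ^ n =
      ∑ k ∈ Finset.range (n / 2 + 1), 2 * ((n.choose (2 * k) : ℝ) / 4 ^ k) := by
    rw [h1, h2, ← Finset.sum_add_distrib, Finset.sum_congr rfl h3, ← Finset.sum_filter]
    symm
    refine Finset.sum_bij (fun k _ => 2 * k) ?_ ?_ ?_ ?_
    · intro k hk
      rw [Finset.mem_range] at hk
      rw [Finset.mem_filter, Finset.mem_range]
      exact ⟨by omega, even_two_mul k⟩
    · intro k _ l _ h
      omega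
    · intro j hj
      rw [Finset.mem_filter, Finset.mem_range] at hj
      obtain ⟨⟨m, hm⟩⟩ := And.intro hj.2 trivial
      exact ⟨m, Finset.mem_range.2 (by omega), by omega⟩
    · intro k _
      rw [pow_mul, div_eq_mul_inv, ← inv_pow]
      norm_num
  rw [h4, Finset.range_eq_Ico, Finset.sum_eq_sum_Ico_succ_bot (by omega)]
  rw [show Finset.Ico (0 + 1) (n / 2 + 1) = Finset.Icc 1 (n / 2) by
    ext k
    simp only [Finset.mem_Ico, Finset.mem_Icc]
    omega]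
  rw [← Finset.mul_sum]
  simp
  ring

end Pool.Agent.MP94h
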