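import Pool.Agent.Lib.MP_94c361_co_H.Prob

/-!
# MP_94c361_co: how often the coefficient does not vanish, with a test kernel
-/

set_option autoImplicit false

open scoped BigOperators

namespace Pool.Agent.MP94h

theorem gram_mix {α β : Type} (F : Finset α) (Γ S : Finset β) (W : α → β → ℤ) :
    ∑ σ ∈ F, ∑ τ ∈ F, (∑ g ∈ Γ, W σ g * W τ g) * (∑ g' ∈ S, W σ g' * W τ g') =
      ∑ g ∈ Γ, ∑ g' ∈ S, (∑ σ ∈ F, W σ g * W σ g') ^ 2 := by
  simp only [sq, Finset.sum_mul_sum]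
  have h2 : ∀ σ ∈ F, ∑ τ ∈ F, ∑ g ∈ Γ, ∑ g' ∈ S, W σ g * W τ g * (W σ g' * W τ g') =
      ∑ g ∈ Γ, ∑ g' ∈ S, ∑ τ ∈ F, W σ g * W τ g * (W σ g' * W τ g') := by
    intro σ _
    rw [Finset.sum_comm]
    exact Finset.sum_congr rfl fun g _ => Finset.sum_comm
  rw [Finset.sum_congr rfl h2, Finset.sum_comm]
  refine Finset.sum_congr rfl fun g _ => ?_
  rw [Finset.sum_comm]
  refine Finset.sum_congr rfl fun g' _ => Finset.sum_congr rfl fun σ _ =>
    Finset.sum_congr rfl fun τ _ => ?_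
  ring

variable {n : ℕ}

theorem top_nonneg (hn : 1 ≤ n) : (0 : ℤ) ≤ 2 ^ n + 2 * (-1) ^ n := by
  have h4 : (2 : ℤ) ≤ 2 ^ n := by
    calc (2 : ℤ) = 2 ^ 1 := by norm_num
      _ ≤ 2 ^ n := pow_le_pow_right₀ (by norm_num) hn
  rcases neg_one_pow_eq_or ℤ n with h | h <;> rw [h] <;> linarith

theorem mix_le (hn : 1 ≤ n) (S : Finset (Fin n → ℤ)) (B : ℤ) (hB : 0 ≤ B)
    (h : ∀ σ ∈ full n, ∑ g ∈ S, (W σ g) ^ 2 ≤ B) :
    ∑ g ∈ Gam n, ∑ g' ∈ S, (∑ σ ∈ full n, W σ g * W σ g') ^ 2 ≤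
      ((nz n).card : ℤ) * ((2 ^ n + 2 * (-1) ^ n) * B) := by
  rw [← gram_mix, ← Finset.sum_product']
  have h1 : ∑ p ∈ full n ×ˢ full n,
      (∑ g ∈ Gam n, W p.1 g * W p.2 g) * (∑ g' ∈ S, W p.1 g' * W p.2 g') =
      ∑ p ∈ nz n, (∑ g ∈ Gam n, W p.1 g * W p.2 g) * (∑ g' ∈ S, W p.1 g' * W p.2 g') := by
    unfold nz
    rw [Finset.sum_filter]
    refine Finset.sum_congr rfl fun p _ => ?_
    by_cases h : hc p.1 p.2 = 0
    · have h5 : ∑ g ∈ Gam n, W p.1 g * W p.2 g = 0 := by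
        rw [hc_inner] at h
        exact (mul_eq_zero.1 h).resolve_left (pow_ne_zero _ (by norm_num))
      rw [h5, zero_mul]
      simp
    · rw [if_pos h]
  rw [h1, ← nsmul_eq_mul]
  refine Finset.sum_le_card_nsmul _ _ _ fun p hp => ?_
  have h2 := Finset.mem_product.1 (Finset.mem_filter.1 hp).1
  have h3 : (∑ g ∈ Gam n, W p.1 g * W p.2 g) ^ 2 ≤ (2 ^ n + 2 * (-1) ^ n) ^ 2 := by
    have h4 := Finset.sum_mul_sq_le_sq_mul_sq (Gam n) (W p.1) (W p.2)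
    rw [sum_W_sq hn (Finset.mem_filter.1 h2.1).2, sum_W_sq hn (Finset.mem_filter.1 h2.2).2,
      ← sq] at h4
    exact h4
  have h4 : (∑ g' ∈ S, W p.1 g' * W p.2 g') ^ 2 ≤ B ^ 2 := by
    refine (Finset.sum_mul_sq_le_sq_mul_sq S (W p.1) (W p.2)).trans ?_
    rw [sq B]
    exact mul_le_mul (h _ h2.1) (h _ h2.2) (Finset.sum_nonneg fun _ _ => sq_nonneg _) hB
  refine (le_abs_self _).trans ?_
  rw [abs_mul]
  exact mul_le_mul (abs_le_of_sq_le_sq h3 (top_nonneg hn)) (abs_le_of_sq_le_sq h4 hB)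
    (abs_nonneg _) (top_nonneg hn)

theorem two_le {g' : Fin n → ℤ} (hg : g' ∈ Gam n) (h0 : g' ≠ 0) :
    2 * (∑ σ ∈ full n, (W σ g') ^ 2) ^ 2 ≤
      ∑ g ∈ Gam n, (∑ σ ∈ full n, W σ g * W σ g') ^ 2 := by
  have hne : g' ≠ -g' := by
    intro h
    apply h0
    funext u
    have := congrFun h u
    rw [Pi.neg_apply] at this
    show g' u = 0
    omega
  have h1 : ({g', -g'} : Finset (Fin n → ℤ)) ⊆ Gam n := by
    intro g h
    rcases Finset.mem_insert.1 h with h | h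
    · rw [h]
      exact hg
    · rw [Finset.mem_singleton.1 h]
      exact neg_mem hg
  have h2 := Finset.sum_le_sum_of_subset_of_nonneg h1
    (f := fun g => (∑ σ ∈ full n, W σ g * W σ g') ^ 2) (fun g _ _ => sq_nonneg _)
  rw [Finset.sum_pair hne] at h2
  have h3 : ∑ σ ∈ full n, W σ g' * W σ g' = ∑ σ ∈ full n, (W σ g') ^ 2 :=
    Finset.sum_congr rfl fun σ _ => (sq _).symm
  have h4 : (∑ σ ∈ full n, W σ (-g') * W σ g') ^ 2 = (∑ σ ∈ full n, (W σ g') ^ 2) ^ 2 := by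
    have h5 : ∑ σ ∈ full n, W σ (-g') * W σ g' = (-1) ^ n * ∑ σ ∈ full n, (W σ g') ^ 2 := by
      rw [Finset.mul_sum]
      refine Finset.sum_congr rfl fun σ _ => ?_
      rw [W_neg]
      ring
    rw [h5, mul_pow, ← pow_mul, mul_comm n 2, pow_mul]
    norm_num
  rw [h3, h4] at h2
  linarith

theorem W_sq_le_one {σ : Equiv.Perm (Fin n)} (hσ : σ.cycleType = {n}) {g : Fin n → ℤ}
    (hg : g ≠ 0) : (W σ g) ^ 2 ≤ 1 := by
  rw [W_sq hσ hg]
  have h1 : (Finset.univ.filter (fun x : Fin n → Bool => df σ x = g)).card ≤ 1 := by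
    refine Finset.card_le_one.2 fun x hx y hy => ?_
    have hx' := (Finset.mem_filter.1 hx).2
    have hy' := (Finset.mem_filter.1 hy).2
    exact uniq hσ (hx'.trans hy'.symm) (by rw [hx']; exact hg)
  exact_mod_cast h1

theorem nz_any (hn : 2 ≤ n) :
    2 * ((full n).card : ℤ) ^ 2 ≤ ((nz n).card : ℤ) * (2 ^ n + 2 * (-1) ^ n) := by
  have h0 : ∀ g ∈ Gk n 1, g ≠ 0 := by
    rintro g hg rfl
    have h1 := (Finset.mem_filter.1 hg).2.1
    simp at h1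
  have h1 := layer (n := n) (by omega) (k := 1) le_rfl
  have h2 : ∀ σ ∈ full n, ∑ g ∈ Gk n 1, (W σ g) ^ 2 ≤ ((Gk n 1).card : ℤ) := by
    intro σ hσ
    have h3 : ∑ g ∈ Gk n 1, (W σ g) ^ 2 ≤ (Gk n 1).card • (1 : ℤ) :=
      Finset.sum_le_card_nsmul _ _ _ fun g hg =>
        W_sq_le_one (Finset.mem_filter.1 hσ).2 (h0 g hg)
    simpa using h3
  have h3 := mix_le (n := n) (by omega) (Gk n 1) ((Gk n 1).card : ℤ) (by positivity) h2
  rw [Finset.sum_comm] at h3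
  have h4 : 2 * ∑ g ∈ Gk n 1, (∑ σ ∈ full n, (W σ g) ^ 2) ^ 2 ≤
      ∑ g' ∈ Gk n 1, ∑ g ∈ Gam n, (∑ σ ∈ full n, W σ g * W σ g') ^ 2 := by
    rw [Finset.mul_sum]
    exact Finset.sum_le_sum fun g hg => two_le (Finset.mem_filter.1 hg).1 (h0 g hg)
  have h5 : ((Gk n 1).card : ℤ) ≤ 2 * (n.choose (2 * 1) : ℤ) := by
    have h6 := card_Gk n 1
    have h7 : n.choose 1 * (n - 1).choose 1 = 2 * n.choose (2 * 1) := by
      rw [Nat.choose_one_right, Nat.choose_one_right, mul_one, mul_comm 2 (n.choose 2),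
        Nat.choose_two_right, Nat.div_mul_cancel (even_iff_two_dvd.1 (Nat.even_mul_pred_self n))]
    rw [h7] at h6
    exact_mod_cast h6
  have h8 : (0 : ℤ) < 2 * (n.choose (2 * 1) : ℤ) := by
    have : 0 < n.choose (2 * 1) := Nat.choose_pos hn
    positivity
  have hD := top_nonneg (n := n) (by omega)
  set P : ℤ := 2 * (n.choose (2 * 1) : ℤ)
  set M : ℤ := ((Gk n 1).card : ℤ)
  set A : ℤ := ((full n).card : ℤ)
  set Z : ℤ := ((nz n).card : ℤ)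
  set D : ℤ := 2 ^ n + 2 * (-1) ^ n
  have hM : 0 ≤ M := by positivity
  have hZ : 0 ≤ Z := by positivity
  have h9 : 2 * (P * A) ^ 2 ≤ M * (Z * (D * M)) := by
    have h10 := mul_le_mul_of_nonneg_left (h4.trans h3) hM
    have h11 : M * (2 * ∑ g ∈ Gk n 1, (∑ σ ∈ full n, (W σ g) ^ 2) ^ 2) =
        2 * (M * ∑ g ∈ Gk n 1, (∑ σ ∈ full n, (W σ g) ^ 2) ^ 2) := by ring
    rw [h11] at h10
    linarith
  have h12 : M * (Z * (D * M)) ≤ P ^ 2 * (Z * D) := by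
    have h13 : M ^ 2 ≤ P ^ 2 := pow_le_pow_left₀ hM h5 2
    calc M * (Z * (D * M)) = M ^ 2 * (Z * D) := by ring
      _ ≤ P ^ 2 * (Z * D) := mul_le_mul_of_nonneg_right h13 (mul_nonneg hZ hD)
  have h14 : P ^ 2 * (2 * A ^ 2) ≤ P ^ 2 * (Z * D) := by
    calc P ^ 2 * (2 * A ^ 2) = 2 * (P * A) ^ 2 := by ring
      _ ≤ _ := h9.trans h12
  exact le_of_mul_le_mul_left h14 (by positivity)

theorem nz_even (hn : 1 ≤ n) (he : Even n) :
    4 * ((full n).card : ℤ) ^ 2 ≤ ((nz n).card : ℤ) * (2 ^ n + 2) := by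
  have h2 : ∀ σ ∈ full n, ∑ g ∈ ({0} : Finset (Fin n → ℤ)), (W σ g) ^ 2 ≤ 4 := by
    intro σ hσ
    rw [Finset.sum_singleton, W_zero hn (Finset.mem_filter.1 hσ).2, if_pos he]
  have h3 := mix_le hn {0} 4 (by norm_num) h2
  simp only [Finset.sum_singleton] at h3
  have h4 := Finset.single_le_sum (s := Gam n)
    (f := fun g => (∑ σ ∈ full n, W σ g * W σ 0) ^ 2) (fun g _ => sq_nonneg _) (zero_mem n)
  have h5 : ∑ σ ∈ full n, W σ 0 * W σ 0 = 4 * ((full n).card : ℤ) := by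
    rw [Finset.sum_congr rfl (fun σ hσ => (sq (W σ 0)).symm.trans
      (by rw [W_zero hn (Finset.mem_filter.1 hσ).2, if_pos he]))]
    rw [Finset.sum_const, nsmul_eq_mul, mul_comm]
  have h6 := h4.trans h3
  simp only [h5] at h6
  rw [he.neg_one_pow] at h6
  linarith

end Pool.Agent.MP94h
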