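import Pool.Agent.Lib.MP_94c361_co_H.Eul

/-!
# MP_94c361_co: how often the coefficient does not vanish
-/

set_option autoImplicit false

open scoped BigOperators

namespace Pool.Agent.MP94h

variable {n : ℕ}

theorem sum_N (σ : Equiv.Perm (Fin n)) : ∑ g ∈ Gam n, N σ g = 2 ^ n := by
  unfold N
  rw [← Nat.cast_sum, ← Finset.card_eq_sum_card_fiberwise (f := fun x => df σ x) (t := Gam n)
    (fun x _ => Finset.mem_coe.2 (df_mem σ x))]
  simp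

theorem sum_W_sq (hn : 1 ≤ n) {σ : Equiv.Perm (Fin n)} (hσ : σ.cycleType = {n}) :
    ∑ g ∈ Gam n, (W σ g) ^ 2 = 2 ^ n + 2 * (-1) ^ n := by
  have h1 := sum_N σ
  rw [← Finset.add_sum_erase _ _ (zero_mem n)] at h1 ⊢
  have h3 : ∑ g ∈ (Gam n).erase 0, (W σ g) ^ 2 = ∑ g ∈ (Gam n).erase 0, N σ g :=
    Finset.sum_congr rfl fun g hg => W_sq hσ (Finset.ne_of_mem_erase hg)
  rw [N_zero hn hσ] at h1
  rw [h3, W_zero hn hσ]
  by_cases h : Even n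
  · rw [if_pos h, h.neg_one_pow]
    linarith
  · rw [if_neg h, (Nat.not_even_iff_odd.1 h).neg_one_pow]
    linarith

theorem hc_sq_le (hn : 1 ≤ n) {σ τ : Equiv.Perm (Fin n)} (hσ : σ.cycleType = {n})
    (hτ : τ.cycleType = {n}) : (hc σ τ) ^ 2 ≤ (2 ^ n + 2 * (-1) ^ n) ^ 2 := by
  have h1 : (hc σ τ) ^ 2 = (∑ g ∈ Gam n, W σ g * W τ g) ^ 2 := by
    rw [hc_inner, mul_pow, ← pow_mul, mul_comm n 2, pow_mul]
    norm_num
  have h2 := Finset.sum_mul_sq_le_sq_mul_sq (Gam n) (W σ) (W τ)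
  rw [sum_W_sq hn hσ, sum_W_sq hn hτ, ← sq] at h2
  rw [h1]
  exact h2

/-- The pairs of full cycles for which the coefficient is not zero. -/
noncomputable def nz (n : ℕ) : Finset (Equiv.Perm (Fin n) × Equiv.Perm (Fin n)) :=
  (full n ×ˢ full n).filter (fun p => hc p.1 p.2 ≠ 0)

theorem sum_le_nz (hn : 1 ≤ n) : ∑ σ ∈ full n, ∑ τ ∈ full n, (hc σ τ) ^ 2 ≤
    ((nz n).card : ℤ) * (2 ^ n + 2 * (-1) ^ n) ^ 2 := by
  rw [← Finset.sum_product']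
  have h1 : ∑ p ∈ full n ×ˢ full n, (hc p.1 p.2) ^ 2 = ∑ p ∈ nz n, (hc p.1 p.2) ^ 2 := by
    unfold nz
    rw [Finset.sum_filter]
    refine Finset.sum_congr rfl fun p _ => ?_
    by_cases h : hc p.1 p.2 = 0
    · rw [h]
      simp
    · rw [if_pos h]
  rw [h1, ← nsmul_eq_mul]
  refine Finset.sum_le_card_nsmul _ _ _ fun p hp => ?_
  have h2 := Finset.mem_product.1 (Finset.mem_filter.1 hp).1
  exact hc_sq_le hn (Finset.mem_filter.1 h2.1).2 (Finset.mem_filter.1 h2.2).2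

theorem nz_lower (hn : 1 ≤ n) :
    (4 * (((3 : ℝ) / 2) ^ n + (1 / 2) ^ n) + (if Even n then 8 else -8)) *
        ((full n).card : ℝ) ^ 2 ≤ ((nz n).card : ℝ) * (2 ^ n + 2 * (-1) ^ n) ^ 2 := by
  have h1 := main_ineq (n := n) hn
  have h2 := eo_ge (n := n) hn
  have h3 := growth n
  have h4 : 2 * ((∑ σ ∈ full n, ∑ τ ∈ full n, heo σ τ : ℕ) : ℝ) +
      (if Even n then 8 else -8) * ((full n).card : ℝ) ^ 2 ≤
      ((nz n).card : ℝ) * (2 ^ n + 2 * (-1) ^ n) ^ 2 := by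
    have h5 : (((2 * ((∑ σ ∈ full n, ∑ τ ∈ full n, heo σ τ : ℕ) : ℤ) +
      (if Even n then 8 else -8) * ((full n).card : ℤ) ^ 2 : ℤ)) : ℝ) ≤
      ((((nz n).card : ℤ) * (2 ^ n + 2 * (-1) ^ n) ^ 2 : ℤ) : ℝ) := by
      exact_mod_cast h1.trans (sum_le_nz hn)
    refine le_trans (le_of_eq ?_) (h5.trans (le_of_eq ?_))
    · rw [Int.cast_add, Int.cast_mul, Int.cast_mul, Int.cast_pow, Int.cast_natCast,
        Int.cast_natCast]
      split_ifs <;> norm_num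
    · push_cast
      ring
  have h6 : (2 * (((3 : ℝ) / 2) ^ n + (1 / 2) ^ n)) * ((full n).card : ℝ) ^ 2 ≤
      ((∑ σ ∈ full n, ∑ τ ∈ full n, heo σ τ : ℕ) : ℝ) :=
    (mul_le_mul_of_nonneg_right h3 (by positivity)).trans h2
  linarith

theorem num_ineq (hn : 3 ≤ n) : 3 * ((3 : ℝ) / 8) ^ n * (2 ^ n + 2 * (-1) ^ n) ^ 2 ≤
    4 * (((3 : ℝ) / 2) ^ n + (1 / 2) ^ n) + (if Even n then 8 else -8) := by
  have e1 : ((3 : ℝ) / 8) ^ n * (2 ^ n) = (3 / 4) ^ n := by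
    rw [← mul_pow]
    norm_num
  have e2 : ((3 : ℝ) / 8) ^ n * (2 ^ n * 2 ^ n) = (3 / 2) ^ n := by
    rw [← mul_pow, ← mul_pow]
    norm_num
  have p1 : ((3 : ℝ) / 4) ^ n ≤ (3 / 4) ^ 3 := pow_le_pow_of_le_one (by norm_num) (by norm_num) hn
  have p2 : ((3 : ℝ) / 8) ^ n ≤ (3 / 8) ^ 3 := pow_le_pow_of_le_one (by norm_num) (by norm_num) hn
  have q1 : (0 : ℝ) < (3 / 4) ^ n := by positivity
  have q2 : (0 : ℝ) < (3 / 8) ^ n := by positivity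
  have q3 : (0 : ℝ) < (3 / 2) ^ n := by positivity
  have q4 : (0 : ℝ) < (1 / 2) ^ n := by positivity
  by_cases h : Even n
  · rw [if_pos h, h.neg_one_pow]
    have e3 : 3 * ((3 : ℝ) / 8) ^ n * (2 ^ n + 2 * 1) ^ 2 =
        3 * (3 / 2) ^ n + 12 * (3 / 4) ^ n + 12 * (3 / 8) ^ n := by
      rw [← e2, ← e1]
      ring
    rw [e3]
    norm_num at p1 p2
    linarith
  · rw [if_neg h, (Nat.not_even_iff_odd.1 h).neg_one_pow]
    have e3 : 3 * ((3 : ℝ) / 8) ^ n * (2 ^ n + 2 * (-1)) ^ 2 =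
        3 * (3 / 2) ^ n - 12 * (3 / 4) ^ n + 12 * (3 / 8) ^ n := by
      rw [← e2, ← e1]
      ring
    rw [e3]
    rcases Nat.lt_or_ge n 6 with h6 | h6
    · interval_cases n
      · norm_num
      · exact absurd (by decide) h
      · norm_num
    · have p3 : ((3 : ℝ) / 2) ^ 6 ≤ (3 / 2) ^ n := pow_le_pow_right₀ (by norm_num) h6
      have p4 : ((3 : ℝ) / 8) ^ n ≤ (3 / 8) ^ 6 :=
        pow_le_pow_of_le_one (by norm_num) (by norm_num) h6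
      norm_num at p3 p4
      linarith

theorem nz_ge (hn : 3 ≤ n) :
    3 * ((3 : ℝ) / 8) ^ n * ((full n).card : ℝ) ^ 2 ≤ ((nz n).card : ℝ) := by
  have h1 := nz_lower (n := n) (by omega)
  have h2 := num_ineq hn
  have h3 : (0 : ℝ) < (2 ^ n + 2 * (-1) ^ n) ^ 2 := by
    have h4 : (8 : ℝ) ≤ 2 ^ n := by
      calc (8 : ℝ) = 2 ^ 3 := by norm_num
        _ ≤ 2 ^ n := pow_le_pow_right₀ (by norm_num) hn
    have h5 : (-1 : ℝ) ≤ (-1) ^ n := by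
      rcases neg_one_pow_eq_or ℝ n with h | h <;> rw [h]
      norm_num
    have h6 : (0 : ℝ) < 2 ^ n + 2 * (-1) ^ n := by linarith
    positivity
  refine le_of_mul_le_mul_right ?_ h3
  calc 3 * ((3 : ℝ) / 8) ^ n * ((full n).card : ℝ) ^ 2 * (2 ^ n + 2 * (-1) ^ n) ^ 2 =
      (3 * ((3 : ℝ) / 8) ^ n * (2 ^ n + 2 * (-1) ^ n) ^ 2) * ((full n).card : ℝ) ^ 2 := by ring
    _ ≤ (4 * (((3 : ℝ) / 2) ^ n + (1 / 2) ^ n) + (if Even n then 8 else -8)) *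
        ((full n).card : ℝ) ^ 2 := mul_le_mul_of_nonneg_right h2 (by positivity)
    _ ≤ _ := h1

end Pool.Agent.MP94h
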